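import Pool.Agent.Helper28.T3E.StE

/-!
# Project T3E, module CHS: the character sum of the counting function
-/

set_option autoImplicit false

namespace Pool.Agent.Helper25.T3E

open Pool.Agent.Helper28.T3E

/-- Invariance of a sum over a period under multiplication by a number prime to the period. -/
private theorem permSum (D : ℕ) (hD : 0 < D) (t : ℤ) (ht : IsCoprime t (D : ℤ)) (f : ℤ → ℤ)
    (hf : ∀ x, f (x % (D : ℤ)) = f x) :
    ∑ u ∈ Finset.range D, f (t * (u : ℤ)) = ∑ u ∈ Finset.range D, f (u : ℤ) := by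
  have hD' : (0 : ℤ) < (D : ℤ) := by exact_mod_cast hD
  have hinj : Set.InjOn (fun u : ℕ => ((t * (u : ℤ)) % (D : ℤ)).toNat)
      (Finset.range D : Set ℕ) := by
    intro x hx y hy hxy
    rw [Finset.mem_coe, Finset.mem_range] at hx hy
    simp only at hxy
    have h1 := Int.toNat_of_nonneg (Int.emod_nonneg (t * (x : ℤ)) hD'.ne')
    have h2 := Int.toNat_of_nonneg (Int.emod_nonneg (t * (y : ℤ)) hD'.ne')
    have h3 : (t * (x : ℤ)) % (D : ℤ) = (t * (y : ℤ)) % (D : ℤ) := by
      rw [← h1, ← h2, hxy]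
    have h4 : (D : ℤ) ∣ t * (x : ℤ) - t * (y : ℤ) := Int.dvd_of_emod_eq_zero (by
      rw [Int.sub_emod, h3]; simp)
    rw [← mul_sub] at h4
    have h5 : (D : ℤ) ∣ ((x : ℤ) - (y : ℤ)) := ht.symm.dvd_of_dvd_mul_left h4
    obtain ⟨c, hc⟩ := h5
    have h6 : c = 0 := by
      by_contra h
      rcases lt_or_gt_of_ne h with h | h
      · nlinarith
      · nlinarith
    rw [h6] at hc
    omega
  have hmaps : ∀ u ∈ Finset.range D, ((t * (u : ℤ)) % (D : ℤ)).toNat ∈ Finset.range D := by
    intro u _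
    rw [Finset.mem_range]
    have h1 := Int.emod_nonneg (t * (u : ℤ)) hD'.ne'
    have h2 := Int.emod_lt_of_pos (t * (u : ℤ)) hD'
    omega
  have himg : (Finset.range D).image (fun u : ℕ => ((t * (u : ℤ)) % (D : ℤ)).toNat) =
      Finset.range D := by
    apply Finset.eq_of_subset_of_card_le
    · intro x hx
      rw [Finset.mem_image] at hx
      obtain ⟨u, hu, rfl⟩ := hx
      exact hmaps u hu
    · rw [Finset.card_image_of_injOn hinj]
  calc ∑ u ∈ Finset.range D, f (t * (u : ℤ))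
      = ∑ u ∈ Finset.range D, f ((((t * (u : ℤ)) % (D : ℤ)).toNat : ℕ) : ℤ) := by
        apply Finset.sum_congr rfl
        intro u _
        rw [Int.toNat_of_nonneg (Int.emod_nonneg _ hD'.ne'), hf]
    _ = ∑ v ∈ (Finset.range D).image (fun u : ℕ => ((t * (u : ℤ)) % (D : ℤ)).toNat),
          f (v : ℤ) := by
        rw [Finset.sum_image hinj]
    _ = _ := by rw [himg]

/-- A number of character `-1` that is `1` modulo `D / p`. -/
private theorem exists_t (D : ℕ) (hD : Squarefree D) (hodd : D % 2 = 1) (p : ℕ) (hp : p.Prime)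
    (hpD : p ∣ D) : ∃ t : ℤ, IsCoprime t (D : ℤ) ∧ jacobiSym t D = -1 ∧
      ∀ j : ℤ, (p : ℤ) ∣ j → (D : ℤ) ∣ (t - 1) * j := by
  obtain ⟨q, rfl⟩ := hpD
  have : Fact p.Prime := ⟨hp⟩
  have hp0 : p ≠ 0 := hp.ne_zero
  have hq0 : q ≠ 0 := by
    rintro rfl
    simp at hodd
  have hcop : p.Coprime q := by
    have := (Nat.squarefree_mul_iff.mp hD).1
    exact this
  have hp2 : p ≠ 2 := by
    rintro rfl
    omega
  have hchar : ringChar (ZMod p) ≠ 2 := by
    rw [ZMod.ringChar_zmod_n]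
    exact hp2
  obtain ⟨a, ha⟩ := FiniteField.exists_nonsquare (F := ZMod p) hchar
  obtain ⟨k, hk1, hk2⟩ := Nat.chineseRemainder hcop a.val 1
  have hJp : jacobiSym (k : ℤ) p = -1 := by
    rw [← jacobiSym.legendreSym.to_jacobiSym]
    rw [legendreSym.eq_neg_one_iff]
    have : ((k : ℤ) : ZMod p) = a := by
      have h1 : ((k : ℕ) : ZMod p) = ((a.val : ℕ) : ZMod p) :=
        (ZMod.natCast_eq_natCast_iff _ _ _).mpr hk1
      rw [ZMod.natCast_zmod_val] at h1
      exact_mod_cast h1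
    rw [this]
    exact ha
  have hJq : jacobiSym (k : ℤ) q = 1 := by
    have h1 : ((k : ℕ) : ℤ) % (q : ℤ) = 1 % (q : ℤ) := by
      have : k % q = 1 % q := hk2
      exact_mod_cast this
    rw [jacobiSym.mod_left' h1, jacobiSym.one_left]
  have hJ : jacobiSym (k : ℤ) (p * q) = -1 := by
    rw [jacobiSym.mul_right' _ hp0 hq0, hJp, hJq]
    norm_num
  refine ⟨(k : ℤ), ?_, hJ, ?_⟩
  · rw [Int.isCoprime_iff_gcd_eq_one]
    by_contra h
    have h0 : jacobiSym (k : ℤ) (p * q) = 0 :=
      jacobiSym.eq_zero_iff.mpr ⟨Nat.mul_ne_zero hp0 hq0, h⟩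
    rw [hJ] at h0
    norm_num at h0
  · intro j hj
    obtain ⟨c, rfl⟩ := hj
    have h1 : (q : ℤ) ∣ ((k : ℤ) - 1) := by
      have h2 : ((1 : ℕ) : ℤ) ≡ (k : ℤ) [ZMOD (q : ℤ)] := (Int.natCast_modEq_iff.mpr hk2).symm
      have h3 := h2.dvd
      simpa using h3
    obtain ⟨e, he⟩ := h1
    rw [he]
    refine ⟨e * c, ?_⟩
    push_cast
    ring

/-- The counted classes. -/
private def hh (D : ℕ) (x : ℤ) : ℤ :=
  if (3 * (x % (D : ℤ)) < (D : ℤ) ∨ 2 * (D : ℤ) < 3 * (x % (D : ℤ))) then 1 else 0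

private theorem hh_mod (D : ℕ) (x : ℤ) : hh D (x % (D : ℤ)) = hh D x := by
  unfold hh
  rw [Int.emod_emod_of_dvd _ (dvd_refl _)]

private theorem hh_congr (D : ℕ) (x y : ℤ) (h : x % (D : ℤ) = y % (D : ℤ)) : hh D x = hh D y := by
  unfold hh
  rw [h]

private theorem Ne_eq (D : ℕ) (b : ℤ) : Helper28.T3E.Ne b (D : ℤ) =
    ∑ j ∈ Finset.range D, if (0 < j ∧ 3 * j < D) then hh D (b * (j : ℤ)) else 0 := by
  unfold Helper28.T3E.Ne
  rw [Int.natAbs_natCast, Finset.card_filter]
  push_cast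
  apply Finset.sum_congr rfl
  intro j _
  unfold hh
  by_cases h1 : 0 < j ∧ 3 * j < D
  · rw [if_pos h1]
    by_cases h2 : (3 * ((b * (j : ℤ)) % (D : ℤ)) < (D : ℤ) ∨
      2 * (D : ℤ) < 3 * ((b * (j : ℤ)) % (D : ℤ)))
    · rw [if_pos h2, if_pos ⟨h1.1, h1.2, h2⟩]
    · rw [if_neg h2, if_neg]
      rintro ⟨_, _, h3⟩
      exact h2 h3
  · rw [if_neg h1, if_neg]
    rintro ⟨h3, h4, _⟩
    exact h1 ⟨h3, h4⟩

private theorem Ne_mod (D : ℕ) (x : ℤ) : Helper28.T3E.Ne (x % (D : ℤ)) (D : ℤ) = Helper28.T3E.Ne x (D : ℤ) := by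
  rw [Ne_eq, Ne_eq]
  apply Finset.sum_congr rfl
  intro j _
  by_cases h1 : 0 < j ∧ 3 * j < D
  · rw [if_pos h1, if_pos h1]
    apply hh_congr
    rw [Int.mul_emod, Int.emod_emod_of_dvd _ (dvd_refl _), ← Int.mul_emod]
  · rw [if_neg h1, if_neg h1]

/-- Module CHS. -/
theorem hCHS : StCHS := by
  intro D hD1 hsq h12
  have hD0 : 0 < D := by omega
  have hDne : D ≠ 0 := by omega
  have hodd2 : D % 2 = 1 := by omega
  have hodd : Odd D := Nat.odd_iff.mpr hodd2
  have h4 : D % 4 = 1 := by omega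
  have hDZ : (0 : ℤ) < (D : ℤ) := by exact_mod_cast hD0
  have hm1 : jacobiSym (-1) D = 1 := by
    rw [jacobiSym.at_neg_one hodd]
    exact ZMod.χ₄_nat_one_mod_four h4
  have h3 : jacobiSym 3 D = -1 := by
    have h := jacobiSym.quadratic_reciprocity_one_mod_four (a := D) (b := 3) h4 (by decide)
    have h' : jacobiSym ((3 : ℕ) : ℤ) D = jacobiSym (D : ℤ) 3 := h.symm
    have h5 : jacobiSym (D : ℤ) 3 = jacobiSym 2 3 := by
      apply jacobiSym.mod_left'
      have : D % 3 = 2 := by omega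
      have h6 : ((D : ℤ)) % 3 = 2 := by exact_mod_cast this
      rw [show ((3 : ℕ) : ℤ) = 3 from rfl, h6]
      norm_num
    have h6 : jacobiSym 2 3 = -1 := by
      rw [jacobiSym.at_two (by decide)]
      decide
    have h7 : jacobiSym (3 : ℤ) D = jacobiSym ((3 : ℕ) : ℤ) D := rfl
    rw [h7, h', h5, h6]
  have hchi0 : jacobiSym 0 D = 0 := jacobiSym.zero_left hD1
  have hchimod : ∀ x : ℤ, jacobiSym (x % (D : ℤ)) D = jacobiSym x D := fun x =>
    (jacobiSym.mod_left x D).symm
  have hchineg : ∀ x : ℤ, jacobiSym (-x) D = jacobiSym x D := by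
    intro x
    rw [show -x = (-1) * x by ring, jacobiSym.mul_left, hm1, one_mul]
  have hchisq : ∀ x : ℤ, IsCoprime x (D : ℤ) → jacobiSym x D * jacobiSym x D = 1 := by
    intro x hx
    have := jacobiSym.sq_one (Int.isCoprime_iff_gcd_eq_one.mp hx)
    rw [← this, sq]
  -- total sum
  have htot : ∑ u ∈ Finset.range D, jacobiSym (u : ℤ) D = 0 := by
    obtain ⟨p, hp, hpD⟩ := Nat.exists_prime_and_dvd (by omega : D ≠ 1)
    obtain ⟨t, ht1, ht2, _⟩ := exists_t D hsq hodd2 p hp hpD
    have h := permSum D hD0 t ht1 (fun x => jacobiSym x D) hchimod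
    have h' : ∑ u ∈ Finset.range D, jacobiSym (t * (u : ℤ)) D =
        - ∑ u ∈ Finset.range D, jacobiSym (u : ℤ) D := by
      rw [← Finset.sum_neg_distrib]
      apply Finset.sum_congr rfl
      intro u _
      rw [jacobiSym.mul_left, ht2]
      ring
    rw [h'] at h
    linarith
  -- the two outer thirds
  have hSE : SE D = ∑ u ∈ Finset.range D, if (3 * u < D) then jacobiSym (u : ℤ) D else 0 := by
    unfold SE
    rw [Finset.sum_filter]
  have hI : ∑ v ∈ Finset.range D, jacobiSym (v : ℤ) D * hh D (v : ℤ) = 2 * SE D := by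
    have e1 : ∑ v ∈ Finset.range D, jacobiSym (v : ℤ) D * hh D (v : ℤ) =
        SE D + ∑ v ∈ Finset.range D,
          (if (2 * (D : ℤ) < 3 * ((v : ℤ) % (D : ℤ))) then jacobiSym (v : ℤ) D else 0) := by
      rw [hSE, ← Finset.sum_add_distrib]
      apply Finset.sum_congr rfl
      intro v hv
      rw [Finset.mem_range] at hv
      have hv' : (v : ℤ) % (D : ℤ) = (v : ℤ) := Int.emod_eq_of_lt (by omega) (by omega)
      unfold hh
      rw [hv']
      by_cases c1 : 3 * v < D
      · rw [if_pos c1, if_pos (by left; omega), if_neg (by omega)]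
        ring
      · rw [if_neg c1]
        by_cases c2 : 2 * (D : ℤ) < 3 * (v : ℤ)
        · rw [if_pos (by right; exact c2), if_pos c2]
          ring
        · rw [if_neg (by push Not; constructor <;> omega), if_neg c2]
          ring
    have e2 : ∑ v ∈ Finset.range D,
          (if (2 * (D : ℤ) < 3 * ((v : ℤ) % (D : ℤ))) then jacobiSym (v : ℤ) D else 0) = SE D := by
      have h := permSum D hD0 (-1) (by
        exact ⟨-1, 0, by ring⟩)
        (fun x => if (2 * (D : ℤ) < 3 * (x % (D : ℤ))) then jacobiSym x D else 0) (by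
          intro x
          rw [Int.emod_emod_of_dvd _ (dvd_refl _), hchimod])
      rw [← h, hSE]
      apply Finset.sum_congr rfl
      intro v hv
      rw [Finset.mem_range] at hv
      rw [show (-1 : ℤ) * (v : ℤ) = -(v : ℤ) by ring, hchineg]
      by_cases c0 : v = 0
      · subst c0
        simp [hchi0]
      · have hv' : (-(v : ℤ)) % (D : ℤ) = (D : ℤ) - (v : ℤ) := by
          rw [← Int.add_emod_right]
          rw [show -(v : ℤ) + (D : ℤ) = (D : ℤ) - (v : ℤ) by ring]
          exact Int.emod_eq_of_lt (by omega) (by omega)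
        rw [hv']
        by_cases c1 : 3 * v < D
        · rw [if_pos c1, if_pos (by omega)]
        · rw [if_neg c1, if_neg (by omega)]
    rw [e1, e2]
    ring
  -- one j
  have hj : ∀ j : ℕ, ∑ u ∈ Finset.range D, jacobiSym (u : ℤ) D * hh D ((u : ℤ) * (j : ℤ)) =
      jacobiSym (j : ℤ) D * (2 * SE D) := by
    intro j
    by_cases hc : IsCoprime (j : ℤ) (D : ℤ)
    · have h := permSum D hD0 (j : ℤ) hc (fun x => jacobiSym x D * hh D x) (by
        intro x
        rw [hchimod, hh_mod])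
      rw [hI] at h
      rw [← h, Finset.mul_sum]
      apply Finset.sum_congr rfl
      intro u _
      rw [jacobiSym.mul_left, ← mul_assoc, ← mul_assoc, hchisq _ hc, one_mul,
        mul_comm (j : ℤ) (u : ℤ)]
    · have hg : ¬ (Int.gcd (j : ℤ) (D : ℤ) = 1) := fun h => hc (Int.isCoprime_iff_gcd_eq_one.mpr h)
      have h0 : jacobiSym (j : ℤ) D = 0 := jacobiSym.eq_zero_iff.mpr ⟨hDne, hg⟩
      rw [h0, zero_mul]
      rw [Int.gcd_natCast_natCast] at hg
      obtain ⟨p, hp, hpg⟩ := Nat.exists_prime_and_dvd hg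
      have hpj : p ∣ j := hpg.trans (Nat.gcd_dvd_left _ _)
      have hpD : p ∣ D := hpg.trans (Nat.gcd_dvd_right _ _)
      obtain ⟨t, ht1, ht2, ht3⟩ := exists_t D hsq hodd2 p hp hpD
      have h := permSum D hD0 t ht1 (fun x => jacobiSym x D * hh D (x * (j : ℤ))) (by
        intro x
        rw [hchimod]
        congr 1
        apply hh_congr
        rw [Int.mul_emod, Int.emod_emod_of_dvd _ (dvd_refl _), ← Int.mul_emod])
      have h' : ∑ u ∈ Finset.range D, jacobiSym (t * (u : ℤ)) D * hh D (t * (u : ℤ) * (j : ℤ)) =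
          - ∑ u ∈ Finset.range D, jacobiSym (u : ℤ) D * hh D ((u : ℤ) * (j : ℤ)) := by
        rw [← Finset.sum_neg_distrib]
        apply Finset.sum_congr rfl
        intro u _
        have e : hh D (t * (u : ℤ) * (j : ℤ)) = hh D ((u : ℤ) * (j : ℤ)) := by
          apply hh_congr
          have h1 : (p : ℤ) ∣ (u : ℤ) * (j : ℤ) := by
            apply Dvd.dvd.mul_left
            exact_mod_cast hpj
          have h2 := ht3 _ h1
          have h3 : (u : ℤ) * (j : ℤ) ≡ t * (u : ℤ) * (j : ℤ) [ZMOD (D : ℤ)] := by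
            apply Int.modEq_iff_dvd.mpr
            have h4 : t * (u : ℤ) * (j : ℤ) - (u : ℤ) * (j : ℤ) =
              (t - 1) * ((u : ℤ) * (j : ℤ)) := by ring
            rw [h4]
            exact h2
          exact h3.symm
        rw [jacobiSym.mul_left, ht2, e]
        ring
      rw [h'] at h
      linarith
  have hmain : ∑ u ∈ Finset.range D, jacobiSym (u : ℤ) D * Helper28.T3E.Ne (u : ℤ) D = 2 * SE D ^ 2 := by
    have e1 : ∀ u ∈ Finset.range D, jacobiSym (u : ℤ) D * Helper28.T3E.Ne (u : ℤ) D =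
        ∑ j ∈ Finset.range D, (if (0 < j ∧ 3 * j < D) then
          jacobiSym (u : ℤ) D * hh D ((u : ℤ) * (j : ℤ)) else 0) := by
      intro u _
      rw [Ne_eq, Finset.mul_sum]
      apply Finset.sum_congr rfl
      intro j _
      split_ifs
      · rfl
      · ring
    rw [Finset.sum_congr rfl e1, Finset.sum_comm]
    have e2 : ∀ j ∈ Finset.range D, ∑ u ∈ Finset.range D, (if (0 < j ∧ 3 * j < D) then
          jacobiSym (u : ℤ) D * hh D ((u : ℤ) * (j : ℤ)) else 0) =
        (if (3 * j < D) then jacobiSym (j : ℤ) D else 0) * (2 * SE D) := by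
      intro j _
      by_cases c0 : j = 0
      · subst c0
        simp [hchi0]
      · by_cases c1 : 3 * j < D
        · rw [if_pos c1, ← hj j]
          apply Finset.sum_congr rfl
          intro u _
          rw [if_pos ⟨Nat.pos_of_ne_zero c0, c1⟩]
        · rw [if_neg c1, zero_mul]
          apply Finset.sum_eq_zero
          intro u _
          rw [if_neg]
          rintro ⟨_, h⟩
          exact c1 h
    rw [Finset.sum_congr rfl e2, ← Finset.sum_mul, ← hSE]
    ring
  refine ⟨hmain, htot, ?_, h3, hm1⟩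
  intro m hm
  have h := permSum D hD0 m hm (fun x => jacobiSym x D * Helper28.T3E.Ne x (D : ℤ)) (by
    intro x
    rw [hchimod, Ne_mod])
  rw [hmain] at h
  rw [← h, Finset.mul_sum]
  apply Finset.sum_congr rfl
  intro a _
  rw [jacobiSym.mul_left, ← mul_assoc, ← mul_assoc, hchisq _ hm, one_mul]

end Pool.Agent.Helper25.T3E
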